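import Pool.Agent.Helper2.LD.St1

/-!
# LD project, module PL: properties of the brush graph
-/

set_option autoImplicit false

namespace Pool.Agent.Helper8.LD

open Pool.Agent.Helper2.LD

variable {K V : Type}

private theorem adj_len {S : SimpleGraph V} {h : ℕ} {u v : BrV K V h} (hA : (brG K S h).Adj u v) :
    (u.1.2 = [] ∧ v.1.2 = [] ∧ S.Adj u.1.1 v.1.1) ∨
    (u.1.1 = v.1.1 ∧ ((∃ c, v.1.2 = c :: u.1.2) ∨ (∃ c, u.1.2 = c :: v.1.2))) := hA

private theorem pBip {S : SimpleGraph V} (hS : Bip S) (h : ℕ) : Bip (brG K S h) := by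
  obtain ⟨col, hcol⟩ := hS
  refine ⟨fun u => xor (col u.1.1) (decide (u.1.2.length % 2 = 1)), ?_⟩
  intro u v hA
  rcases adj_len hA with ⟨h1, h2, h3⟩ | ⟨h1, ⟨c, h2⟩ | ⟨c, h2⟩⟩
  · have := hcol _ _ h3
    simp [h1, h2]
    exact this
  · simp only [h1, h2, List.length_cons, ne_eq]
    rcases Nat.mod_two_eq_zero_or_one u.1.2.length with h3 | h3
    · have h4 : (u.1.2.length + 1) % 2 = 1 := by omega
      simp [h3, h4]
    · have h4 : (u.1.2.length + 1) % 2 = 0 := by omega
      simp [h3, h4]
  · simp only [h1, h2, List.length_cons, ne_eq]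
    rcases Nat.mod_two_eq_zero_or_one v.1.2.length with h3 | h3
    · have h4 : (v.1.2.length + 1) % 2 = 1 := by omega
      simp [h3, h4]
    · have h4 : (v.1.2.length + 1) % 2 = 0 := by omega
      simp [h3, h4]

/-- the hubs -/
private def hubs (K V : Type) (h : ℕ) : Set (BrV K V h) := {u | u.1.2 = []}

private def toS (K : Type) (S : SimpleGraph V) (h : ℕ) : ((brG K S h).induce (hubs K V h)) →g S where
  toFun := fun u => u.1.1.1
  map_rel' := by
    intro u v hA
    have hA' : (brG K S h).Adj u.1 v.1 := hA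
    have hu : u.1.1.2 = [] := u.2
    have hv : v.1.1.2 = [] := v.2
    rcases adj_len hA' with h3 | ⟨_, h4⟩
    · exact h3.2.2
    · exfalso
      rcases h4 with ⟨c, h2⟩ | ⟨c, h2⟩
      · exact List.cons_ne_nil _ _ (h2.symm.trans hv)
      · exact List.cons_ne_nil _ _ (h2.symm.trans hu)

private theorem toS_inj (K : Type) (S : SimpleGraph V) (h : ℕ) :
    Function.Injective (toS K S h) := by
  intro u v huv
  have h1 : u.1.1.1 = v.1.1.1 := huv
  have h2 : u.1.1.2 = [] := u.2
  have h3 : v.1.1.2 = [] := v.2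
  apply Subtype.ext
  apply Subtype.ext
  exact Prod.ext h1 (h2.trans h3.symm)

private theorem pCyc {S : SimpleGraph V} {L : ℕ} (hS : NoCyc S L) (h : ℕ) :
    NoCyc (brG K S h) L := by
  classical
  intro v c hc
  -- the vertex with the longest list
  obtain ⟨u, hu, hmax⟩ : ∃ u ∈ c.support, ∀ w ∈ c.support, w.1.2.length ≤ u.1.2.length := by
    have hne : c.support ≠ [] := c.support_ne_nil
    obtain ⟨u, hu, hmax⟩ := c.support.toFinset.exists_max_image (fun w => w.1.2.length)
      ⟨v, by simp⟩
    refine ⟨u, List.mem_toFinset.1 hu, fun w hw => hmax w (List.mem_toFinset.2 hw)⟩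
  have hall : ∀ w ∈ c.support, w ∈ hubs K V h := by
    by_contra hcon
    push Not at hcon
    obtain ⟨w, hw, hwn⟩ := hcon
    have hpos : 0 < u.1.2.length := by
      have h1 := hmax w hw
      have h2 : 0 < w.1.2.length := List.length_pos_iff.2 hwn
      omega
    have hc' : (c.rotate u hu).IsCycle := hc.rotate hu
    have hne := hc'.snd_ne_penultimate
    have hnil : ¬ (c.rotate u hu).Nil := hc'.not_nil
    have hpar : ∀ x ∈ c.support, (brG K S h).Adj u x → u.1.1 = x.1.1 ∧ u.1.2.tail = x.1.2 := by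
      intro x hx hA
      rcases adj_len hA with ⟨h1, _, _⟩ | ⟨h0, ⟨d, h2⟩ | ⟨d, h2⟩⟩
      · rw [h1] at hpos; simp at hpos
      · have := hmax x hx
        rw [h2] at this
        simp at this
      · refine ⟨h0, ?_⟩
        rw [h2]; rfl
    have hs1 : (c.rotate u hu).snd ∈ c.support :=
      (c.mem_support_rotate_iff u hu).1 ((c.rotate u hu).getVert_mem_support 1)
    have hs2 : (c.rotate u hu).penultimate ∈ c.support :=
      (c.mem_support_rotate_iff u hu).1 ((c.rotate u hu).getVert_mem_support _)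
    have e1 := hpar _ hs1 ((c.rotate u hu).adj_snd hnil)
    have e2 := hpar _ hs2 ((c.rotate u hu).adj_penultimate hnil).symm
    apply hne
    apply Subtype.ext
    exact Prod.ext (e1.1.symm.trans e2.1) (e1.2.symm.trans e2.2)
  have hci : (c.induce (hubs K V h) hall).IsCycle := by
    have h1 := SimpleGraph.Walk.map_induce c hall
    have h2 : ((c.induce (hubs K V h) hall).map
        (SimpleGraph.Embedding.induce (hubs K V h)).toHom).IsCycle := by
      rw [h1]; exact hc
    exact (SimpleGraph.Walk.isCycle_map_iff_of_injective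
      (f := (SimpleGraph.Embedding.induce (G := brG K S h) (hubs K V h)).toHom)
      Subtype.val_injective).1 h2
  have hcs := (SimpleGraph.Walk.isCycle_map_iff_of_injective (toS_inj K S h)).2 hci
  have h3 := hS _ _ hcs
  rw [SimpleGraph.Walk.length_map] at h3
  have h4 : (c.induce (hubs K V h) hall).length = c.length := by
    have h1 := congrArg SimpleGraph.Walk.length (SimpleGraph.Walk.map_induce c hall)
    rwa [SimpleGraph.Walk.length_map] at h1
  rwa [h4] at h3

private theorem choose_ge (m : ℕ) : ∀ j, m + 1 ≤ Nat.choose (m + (j + 1)) (j + 1) := by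
  intro j
  induction j with
  | zero => simp
  | succ j ih =>
    have : m + (j + 1 + 1) = (m + (j + 1)) + 1 := by ring
    rw [this, Nat.choose_succ_succ]
    omega

private theorem okl_exists [Fintype K] [DecidableEq K] (hK : 5 ≤ Fintype.card K) :
    ∀ n : ℕ, ∃ l : List (Finset K), l.length = n ∧ okl l := by
  intro n
  induction n with
  | zero => exact ⟨[], rfl, trivial⟩
  | succ n ih =>
    obtain ⟨l, hl, hok⟩ := ih
    obtain ⟨c, _, hc⟩ := Finset.exists_subset_card_eq
      (s := (Finset.univ : Finset K)) (n := 3 + (l.length + 1) % 3) (by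
        rw [Finset.card_univ]; omega)
    exact ⟨c :: l, by simp [hl], hc, hok⟩

/-- the children of a vertex -/
private def child {h : ℕ} (x : BrV K V h) (hx : x.1.2.length < h)
    (c : {c : Finset K // c.card = 3 + (x.1.2.length + 1) % 3}) : BrV K V h :=
  ⟨(x.1.1, c.1 :: x.1.2), by simpa using hx, c.2, x.2.2⟩

private theorem child_inj {h : ℕ} (x : BrV K V h) (hx : x.1.2.length < h) :
    Function.Injective (child x hx) := by
  intro c d hcd
  have h1 := congrArg (fun u : BrV K V h => u.1.2) hcd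
  simp only [child, List.cons.injEq] at h1
  exact Subtype.ext h1.1

theorem pPL (hD : StBrD) : StPL := by
  intro k hk K V _ _ S hK hS
  obtain ⟨hS1, hS2, hS3⟩ := hS
  have hN : NN k ≤ HH k := by unfold HH; omega
  refine ⟨pBip hS1 _, pCyc hS2 _, ?_, ?_, ?_, ?_, ?_⟩
  · intro x
    exact Nat.sub_le _ _
  · intro x y hA
    have hx := x.2.1
    have hy := y.2.1
    unfold brH
    rcases adj_len hA with ⟨h1, h2, _⟩ | ⟨_, ⟨c, h2⟩ | ⟨c, h2⟩⟩
    · right; right
      rw [h1, h2]; simp
    · left
      have h3 : y.1.2.length = x.1.2.length + 1 := by rw [h2]; rfl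
      omega
    · right; left
      have h3 : x.1.2.length = y.1.2.length + 1 := by rw [h2]; rfl
      omega
  · intro x hx
    have hxl := x.2.1
    obtain ⟨c, l, hcl⟩ : ∃ c l, x.1.2 = c :: l := by
      cases hl : x.1.2 with
      | nil => unfold brH at hx; rw [hl] at hx; simp at hx
      | cons c l => exact ⟨c, l, rfl⟩
    have hok : okl (c :: l) := hcl ▸ x.2.2
    have hlen : x.1.2.length = l.length + 1 := by rw [hcl]; rfl
    refine ⟨⟨(x.1.1, l), by show l.length ≤ HH k; omega, hok.2⟩, ⟨?_, ?_⟩, ?_⟩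
    · exact Or.inr ⟨rfl, Or.inr ⟨c, hcl⟩⟩
    · show HH k - l.length = HH k - x.1.2.length + 1
      omega
    · rintro y ⟨hA, hy⟩
      have hyl := y.2.1
      unfold brH at hy
      rcases adj_len hA with ⟨h1, _, _⟩ | ⟨h0, ⟨d, h2⟩ | ⟨d, h2⟩⟩
      · rw [h1] at hcl; cases hcl
      · have h3 : y.1.2.length = x.1.2.length + 1 := by rw [h2]; rfl
        omega
      · apply Subtype.ext
        rw [hcl] at h2
        injection h2 with h4 h5
        exact Prod.ext h0.symm h5.symm
  · intro x hx
    have hxl := x.2.1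
    unfold brH at hx
    have hlt : x.1.2.length < HH k := by omega
    refine ⟨Finset.univ.map ⟨child x hlt, child_inj x hlt⟩, ?_, ?_⟩
    · rw [Finset.card_map, Finset.card_univ, Fintype.card_finset_len]
      obtain ⟨j, hj⟩ : ∃ j, 3 + (x.1.2.length + 1) % 3 = j + 1 := ⟨2 + (x.1.2.length + 1) % 3, by omega⟩
      rw [hj]
      obtain ⟨m, hm⟩ : ∃ m, Fintype.card K = m + (j + 1) := ⟨Fintype.card K - (j + 1), by omega⟩
      have h1 := choose_ge m j
      rw [hm]
      omega
    · intro y hy
      rw [Finset.mem_map] at hy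
      obtain ⟨c, _, rfl⟩ := hy
      refine ⟨Or.inr ⟨rfl, Or.inl ⟨c.1, rfl⟩⟩, ?_⟩
      show HH k - (x.1.2.length + 1) + 1 = HH k - x.1.2.length
      omega
  · intro F hF η hη
    classical
    obtain ⟨s, hs⟩ := hS3 (F.image fun y => y.1.1) (by
      exact (Finset.card_image_le).trans (by omega))
    obtain ⟨l, hl, hok⟩ := okl_exists (K := K) (by omega) (HH k - η)
    have hHN : HH k = 2 * NN k := rfl
    refine ⟨⟨(s, l), by show l.length ≤ HH k; omega, hok⟩, ?_, ?_⟩
    · show HH k - l.length = η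
      omega
    · intro y hy
      have hne : s ≠ y.1.1 := by
        intro h
        exact hs (Finset.mem_image.2 ⟨y, hy, h.symm⟩)
      have h1 := (hD S (HH k) (⟨(s, l), by show l.length ≤ HH k; omega, hok⟩ : BrV K V (HH k)) y).1 hne
      rw [h1]
      have h2 : (1 : ℕ∞) ≤ S.edist s y.1.1 := Order.one_le_iff_pos.mpr (SimpleGraph.edist_pos_of_ne hne)
      have h3 : ((NN k : ℕ) : ℕ∞) + 1 ≤ (l.length : ℕ∞) + S.edist s y.1.1 := by
        refine add_le_add ?_ h2
        exact_mod_cast (by omega : NN k ≤ l.length)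
      have h4 : ((NN k : ℕ) : ℕ∞) < ((NN k : ℕ) : ℕ∞) + 1 := by
        exact_mod_cast Nat.lt_succ_self _
      exact lt_of_lt_of_le h4 (h3.trans le_self_add)

end Pool.Agent.Helper8.LD
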